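import Mathlib

/-!
# Marginal scenarios, marginal models, entropy functions, polymatroids
-/

namespace Pool.Agent.MP_2f9b3f_lc

/-- A marginal scenario on `[n] = Fin n`: a family of subsets of `[n]` that is closed under
taking subsets and contains the empty set and every singleton. -/
structure IsScenario {n : ℕ} (M : Set (Finset (Fin n))) : Prop where
  down_closed : ∀ S ∈ M, ∀ T : Finset (Fin n), T ⊆ S → T ∈ M
  empty_mem : (∅ : Finset (Fin n)) ∈ M
  singleton_mem : ∀ i : Fin n, ({i} : Finset (Fin n)) ∈ M

/-- The joint outcome set `O_S = ∏_{i ∈ S} O_i`. -/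
abbrev Outcome {n : ℕ} (O : Fin n → Type) (S : Finset (Fin n)) : Type :=
  (i : S) → O i

/-- The marginal on `O_T` of a function `q` on `O_S`, for `T ⊆ S`: the value at `y` is the sum of
`q x` over all `x ∈ O_S` that restrict to `y`. -/
noncomputable def marginal {n : ℕ} (O : Fin n → Type) [∀ i, Fintype (O i)]
    {S T : Finset (Fin n)} (h : T ⊆ S) (q : Outcome O S → ℝ) (y : Outcome O T) : ℝ :=
  open Classical in
  ∑ x : Outcome O S, if Finset.restrict₂ h x = y then q x else 0

/-- The polytope `P(M, O)` of marginal models, as a subset of the real vector space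
`∏_{S ∈ M} ℝ^{O_S}`: each `p S` is a probability vector on `O_S`, and for `T ⊆ S` in `M` the
marginal of `p S` on `O_T` is `p T`. -/
def marginalModels {n : ℕ} (M : Set (Finset (Fin n))) (O : Fin n → Type) [∀ i, Fintype (O i)] :
    Set ((S : M) → (Outcome O S → ℝ)) :=
  {p | (∀ S : M, p S ∈ stdSimplex ℝ (Outcome O S)) ∧
    ∀ (S T : M) (h : T.1 ⊆ S.1), marginal O h (p S) = p T}

/-- Shannon entropy (natural logarithm) `-∑ q x log (q x)` of a probability vector on a finite
set. -/
noncomputable def shannonEntropy {α : Type} [Fintype α] (q : α → ℝ) : ℝ :=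
  ∑ x : α, Real.negMulLog (q x)

/-- A polymatroid on `[n]`: normalised, monotone and submodular. -/
structure IsPolymatroid {n : ℕ} (f : Finset (Fin n) → ℝ) : Prop where
  map_empty : f ∅ = 0
  mono : ∀ S T : Finset (Fin n), S ⊆ T → f S ≤ f T
  submodular : ∀ S T : Finset (Fin n), f (S ∪ T) + f (S ∩ T) ≤ f S + f T

/-- A function on `M` is non-contextual if it is the restriction to `M` of a polymatroid
on `[n]`. -/
def IsNonContextual {n : ℕ} (M : Set (Finset (Fin n))) (g : M → ℝ) : Prop :=
  ∃ f : Finset (Fin n) → ℝ, IsPolymatroid f ∧ ∀ S : M, f S.1 = g S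

end Pool.Agent.MP_2f9b3f_lc
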