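import Pool.Agent.MP_2f9b3f_lc.Defs

/-!
# An extreme marginal model with contextual entropy function
-/

namespace Pool.Agent.MP_2f9b3f_lc

open Finset

/-- The scenario: the graph on four vertices with edges 01, 02, 12, 03, 23. -/
def Mf : Finset (Finset (Fin 4)) :=
  {∅, {0}, {1}, {2}, {3}, {0, 1}, {0, 2}, {1, 2}, {0, 3}, {2, 3}}

abbrev M4 : Set (Finset (Fin 4)) := (Mf : Set (Finset (Fin 4)))

abbrev O3 : Fin 4 → Type := fun _ => Fin 3

theorem isScenario_M4 : IsScenario M4 where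
  down_closed := by
    have : ∀ S ∈ Mf, ∀ T : Finset (Fin 4), T ⊆ S → T ∈ Mf := by decide
    intro S hS T hT
    exact Finset.mem_coe.2 (this S (Finset.mem_coe.1 hS) T hT)
  empty_mem := Finset.mem_coe.2 (by decide)
  singleton_mem := by
    have : ∀ i : Fin 4, ({i} : Finset (Fin 4)) ∈ Mf := by decide
    intro i
    exact Finset.mem_coe.2 (this i)

def m1 (u : Fin 3) : ℕ := if u = 0 then 2 else 1

def sw (u : Fin 3) : Fin 3 := if u = 0 then 0 else if u = 1 then 2 else 1

def wt : Option (Fin 3) → Option (Fin 3) → Option (Fin 3) → Option (Fin 3) → ℕ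
  | none, none, none, none => 4
  | some u, none, none, none => m1 u
  | none, some u, none, none => m1 u
  | none, none, some u, none => m1 u
  | none, none, none, some u => m1 u
  | some u, some v, none, none => if (u = 0 ∧ v ≠ 0) ∨ (u ≠ 0 ∧ v = 0) then 1 else 0
  | some u, none, some v, none => if v = u then m1 u else 0
  | none, some u, some v, none => if v = u then m1 u else 0
  | some u, none, none, some v => if v = u then m1 u else 0
  | none, none, some u, some v => if v = sw u then m1 u else 0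
  | _, _, _, _ => 0

def extOpt (S : Finset (Fin 4)) (x : Outcome O3 S) (i : Fin 4) : Option (Fin 3) :=
  if h : i ∈ S then some (x ⟨i, h⟩) else none

def w (S : Finset (Fin 4)) (x : Outcome O3 S) : ℕ :=
  wt (extOpt S x 0) (extOpt S x 1) (extOpt S x 2) (extOpt S x 3)

/-- The extreme point. -/
noncomputable def pt : (S : M4) → (Outcome O3 S → ℝ) := fun S x => (w S.1 x : ℝ) / 4

theorem w_sum : ∀ S ∈ Mf, ∑ x : Outcome O3 S, w S x = 4 := by decide +kernel

theorem w_marg : ∀ S ∈ Mf, ∀ T ∈ Mf, ∀ h : T ⊆ S, ∀ y : Outcome O3 T,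
    (∑ x : Outcome O3 S, if Finset.restrict₂ (π := O3) h x = y then w S x else 0) = w T y := by
  decide +kernel

theorem pt_mem : pt ∈ marginalModels M4 O3 := by
  refine ⟨fun S => ⟨fun x => by unfold pt; positivity, ?_⟩, fun S T h => ?_⟩
  · have := w_sum S.1 (Finset.mem_coe.1 S.2)
    unfold pt
    rw [← Finset.sum_div, ← Nat.cast_sum, this]
    norm_num
  · funext y
    have := w_marg S.1 (Finset.mem_coe.1 S.2) T.1 (Finset.mem_coe.1 T.2) h y
    unfold marginal pt
    rw [← this, Nat.cast_sum, Finset.sum_div]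
    refine Finset.sum_congr rfl fun x _ => ?_
    by_cases hx : Finset.restrict₂ (π := O3) h x = y
    · simp only [hx, if_true]
    · simp only [hx, if_false]
      simp

/-- assignments on a singleton -/
def one (i : Fin 4) (u : Fin 3) : Outcome O3 {i} := fun _ => u

/-- assignments on a pair -/
def two (i j : Fin 4) (u v : Fin 3) : Outcome O3 {i, j} := fun k => if k.1 = i then u else v

def oneEquiv (i : Fin 4) : Fin 3 ≃ Outcome O3 {i} where
  toFun := one i
  invFun x := x ⟨i, Finset.mem_singleton_self i⟩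
  left_inv _ := rfl
  right_inv x := by
    funext k
    obtain ⟨k, hk⟩ := k
    obtain rfl := Finset.mem_singleton.1 hk
    rfl

def twoEquiv (i j : Fin 4) (hij : j ≠ i) : Fin 3 × Fin 3 ≃ Outcome O3 {i, j} where
  toFun z := two i j z.1 z.2
  invFun x := (x ⟨i, by simp⟩, x ⟨j, by simp⟩)
  left_inv z := by simp [two, hij]
  right_inv x := by
    funext k
    obtain ⟨k, hk⟩ := k
    rcases Finset.mem_insert.1 hk with rfl | hk'
    · simp [two]
    · obtain rfl := Finset.mem_singleton.1 hk'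
      simp [two, hij]

theorem marg_left (i j : Fin 4) (hij : j ≠ i) (q : Outcome O3 {i, j} → ℝ)
    (h : ({i} : Finset (Fin 4)) ⊆ {i, j}) (u : Fin 3) :
    marginal O3 h q (one i u) = ∑ v : Fin 3, q (two i j u v) := by
  unfold marginal
  rw [← (twoEquiv i j hij).sum_comp, Fintype.sum_prod_type]
  have key : ∀ a b : Fin 3,
      (Finset.restrict₂ (π := O3) h (twoEquiv i j hij (a, b)) = one i u) ↔ a = u := by
    intro a b
    constructor
    · intro hh
      have := congrFun hh ⟨i, Finset.mem_singleton_self i⟩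
      simpa [twoEquiv, two, one] using this
    · rintro rfl
      funext k
      obtain ⟨k, hk⟩ := k
      obtain rfl := Finset.mem_singleton.1 hk
      simp [twoEquiv, two, one]
  simp only [key]
  rw [Finset.sum_eq_single u]
  · simp [twoEquiv]
  · intro b _ hb
    simp [hb]
  · simp

theorem marg_right (i j : Fin 4) (hij : j ≠ i) (q : Outcome O3 {i, j} → ℝ)
    (h : ({j} : Finset (Fin 4)) ⊆ {i, j}) (v : Fin 3) :
    marginal O3 h q (one j v) = ∑ u : Fin 3, q (two i j u v) := by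
  unfold marginal
  rw [← (twoEquiv i j hij).sum_comp, Fintype.sum_prod_type]
  have key : ∀ a b : Fin 3,
      (Finset.restrict₂ (π := O3) h (twoEquiv i j hij (a, b)) = one j v) ↔ b = v := by
    intro a b
    constructor
    · intro hh
      have := congrFun hh ⟨j, Finset.mem_singleton_self j⟩
      simpa [twoEquiv, two, one, hij] using this
    · rintro rfl
      funext k
      obtain ⟨k, hk⟩ := k
      obtain rfl := Finset.mem_singleton.1 hk
      simp [twoEquiv, two, one, hij]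
  simp only [key]
  refine Finset.sum_congr rfl fun a _ => ?_
  rw [Finset.sum_eq_single v]
  · simp [twoEquiv]
  · intro b _ hb
    simp [hb]
  · simp

theorem m0 : ({0} : Finset (Fin 4)) ∈ M4 := Finset.mem_coe.2 (by decide)
theorem m1' : ({1} : Finset (Fin 4)) ∈ M4 := Finset.mem_coe.2 (by decide)
theorem m2 : ({2} : Finset (Fin 4)) ∈ M4 := Finset.mem_coe.2 (by decide)
theorem m3 : ({3} : Finset (Fin 4)) ∈ M4 := Finset.mem_coe.2 (by decide)
theorem m01 : ({0, 1} : Finset (Fin 4)) ∈ M4 := Finset.mem_coe.2 (by decide)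
theorem m02 : ({0, 2} : Finset (Fin 4)) ∈ M4 := Finset.mem_coe.2 (by decide)
theorem m12 : ({1, 2} : Finset (Fin 4)) ∈ M4 := Finset.mem_coe.2 (by decide)
theorem m03 : ({0, 3} : Finset (Fin 4)) ∈ M4 := Finset.mem_coe.2 (by decide)
theorem m23 : ({2, 3} : Finset (Fin 4)) ∈ M4 := Finset.mem_coe.2 (by decide)

theorem w_one : ∀ i : Fin 4, ∀ u : Fin 3, w {i} (one i u) = m1 u := by decide
theorem w_01 : ∀ u v : Fin 3, w {0, 1} (two 0 1 u v) =
    if (u = 0 ∧ v ≠ 0) ∨ (u ≠ 0 ∧ v = 0) then 1 else 0 := by decide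
theorem w_02 : ∀ u v : Fin 3, w {0, 2} (two 0 2 u v) = if v = u then m1 u else 0 := by decide
theorem w_12 : ∀ u v : Fin 3, w {1, 2} (two 1 2 u v) = if v = u then m1 u else 0 := by decide
theorem w_03 : ∀ u v : Fin 3, w {0, 3} (two 0 3 u v) = if v = u then m1 u else 0 := by decide
theorem w_23 : ∀ u v : Fin 3, w {2, 3} (two 2 3 u v) = if v = sw u then m1 u else 0 := by decide

/-- A marginal model supported inside the support of `pt` equals `pt`. -/
theorem eq_pt_of_support (q : (S : M4) → (Outcome O3 S → ℝ)) (hq : q ∈ marginalModels M4 O3)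
    (hs : ∀ (S : M4) (x : Outcome O3 S), w S.1 x = 0 → q S x = 0) : q = pt := by
  obtain ⟨hsimp, hmarg⟩ := hq
  have L : ∀ (i j : Fin 4) (hij : j ≠ i) (hi : ({i} : Finset (Fin 4)) ∈ M4)
      (he : ({i, j} : Finset (Fin 4)) ∈ M4) (u : Fin 3),
      q ⟨{i}, hi⟩ (one i u) = ∑ v : Fin 3, q ⟨{i, j}, he⟩ (two i j u v) := by
    intro i j hij hi he u
    have h : ({i} : Finset (Fin 4)) ⊆ {i, j} := by simp
    rw [← marg_left i j hij _ h u, hmarg ⟨{i, j}, he⟩ ⟨{i}, hi⟩ h]
  have R : ∀ (i j : Fin 4) (hij : j ≠ i) (hj : ({j} : Finset (Fin 4)) ∈ M4)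
      (he : ({i, j} : Finset (Fin 4)) ∈ M4) (v : Fin 3),
      q ⟨{j}, hj⟩ (one j v) = ∑ u : Fin 3, q ⟨{i, j}, he⟩ (two i j u v) := by
    intro i j hij hj he v
    have h : ({j} : Finset (Fin 4)) ⊆ {i, j} := by simp
    rw [← marg_right i j hij _ h v, hmarg ⟨{i, j}, he⟩ ⟨{j}, hj⟩ h]
  have T0 : ∑ u : Fin 3, q ⟨{0}, m0⟩ (one 0 u) = 1 := by
    have := (hsimp ⟨{0}, m0⟩).2
    rw [← (oneEquiv 0).sum_comp] at this
    exact this
  have Z01 : ∀ u v : Fin 3, ¬ ((u = 0 ∧ v ≠ 0) ∨ (u ≠ 0 ∧ v = 0)) →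
      q ⟨{0, 1}, m01⟩ (two 0 1 u v) = 0 := fun u v h => hs _ _ (by rw [w_01, if_neg h])
  have Z02 : ∀ u v : Fin 3, v ≠ u → q ⟨{0, 2}, m02⟩ (two 0 2 u v) = 0 :=
    fun u v h => hs _ _ (by rw [w_02, if_neg h])
  have Z12 : ∀ u v : Fin 3, v ≠ u → q ⟨{1, 2}, m12⟩ (two 1 2 u v) = 0 :=
    fun u v h => hs _ _ (by rw [w_12, if_neg h])
  have Z03 : ∀ u v : Fin 3, v ≠ u → q ⟨{0, 3}, m03⟩ (two 0 3 u v) = 0 :=
    fun u v h => hs _ _ (by rw [w_03, if_neg h])
  have Z23 : ∀ u v : Fin 3, v ≠ sw u → q ⟨{2, 3}, m23⟩ (two 2 3 u v) = 0 :=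
    fun u v h => hs _ _ (by rw [w_23, if_neg h])
  have L01 := L 0 1 (by decide) m0 m01
  have L02 := L 0 2 (by decide) m0 m02
  have L12 := L 1 2 (by decide) m1' m12
  have L03 := L 0 3 (by decide) m0 m03
  have L23 := L 2 3 (by decide) m2 m23
  have R01 := R 0 1 (by decide) m1' m01
  have R02 := R 0 2 (by decide) m2 m02
  have R12 := R 1 2 (by decide) m2 m12
  have R03 := R 0 3 (by decide) m3 m03
  have R23 := R 2 3 (by decide) m3 m23
  simp only [Fin.forall_fin_succ, Fin.sum_univ_three, IsEmpty.forall_iff, and_true,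
    Fin.succ_zero_eq_one, Fin.succ_one_eq_two] at L01 L02 L12 L03 L23 R01 R02 R12 R03 R23 T0
  have z01 := And.intro (Z01 0 0 (by decide)) (And.intro (Z01 1 1 (by decide))
    (And.intro (Z01 1 2 (by decide)) (And.intro (Z01 2 1 (by decide)) (Z01 2 2 (by decide)))))
  have z02 := And.intro (Z02 0 1 (by decide)) (And.intro (Z02 0 2 (by decide))
    (And.intro (Z02 1 0 (by decide)) (And.intro (Z02 1 2 (by decide))
    (And.intro (Z02 2 0 (by decide)) (Z02 2 1 (by decide))))))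
  have z12 := And.intro (Z12 0 1 (by decide)) (And.intro (Z12 0 2 (by decide))
    (And.intro (Z12 1 0 (by decide)) (And.intro (Z12 1 2 (by decide))
    (And.intro (Z12 2 0 (by decide)) (Z12 2 1 (by decide))))))
  have z03 := And.intro (Z03 0 1 (by decide)) (And.intro (Z03 0 2 (by decide))
    (And.intro (Z03 1 0 (by decide)) (And.intro (Z03 1 2 (by decide))
    (And.intro (Z03 2 0 (by decide)) (Z03 2 1 (by decide))))))
  have z23 := And.intro (Z23 0 1 (by decide)) (And.intro (Z23 0 2 (by decide))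
    (And.intro (Z23 1 0 (by decide)) (And.intro (Z23 1 1 (by decide))
    (And.intro (Z23 2 0 (by decide)) (Z23 2 2 (by decide))))))
  obtain ⟨L01a, L01b, L01c⟩ := L01
  obtain ⟨L02a, L02b, L02c⟩ := L02
  obtain ⟨L12a, L12b, L12c⟩ := L12
  obtain ⟨L03a, L03b, L03c⟩ := L03
  obtain ⟨L23a, L23b, L23c⟩ := L23
  obtain ⟨R01a, R01b, R01c⟩ := R01
  obtain ⟨R02a, R02b, R02c⟩ := R02
  obtain ⟨R12a, R12b, R12c⟩ := R12
  obtain ⟨R03a, R03b, R03c⟩ := R03
  obtain ⟨R23a, R23b, R23c⟩ := R23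
  obtain ⟨a1, a2, a3, a4, a5⟩ := z01
  obtain ⟨b1, b2, b3, b4, b5, b6⟩ := z02
  obtain ⟨c1, c2, c3, c4, c5, c6⟩ := z12
  obtain ⟨d1, d2, d3, d4, d5, d6⟩ := z03
  obtain ⟨e1, e2, e3, e4, e5, e6⟩ := z23
  have hone : ∀ (i : Fin 4) (hi : ({i} : Finset (Fin 4)) ∈ M4),
      (∀ u, q ⟨{i}, hi⟩ (one i u) = (m1 u : ℝ) / 4) → q ⟨{i}, hi⟩ = pt ⟨{i}, hi⟩ := by
    intro i hi h
    funext x
    obtain ⟨u, rfl⟩ := (oneEquiv i).surjective x
    change q ⟨{i}, hi⟩ (one i u) = (w {i} (one i u) : ℝ) / 4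
    rw [w_one, h]
  have htwo : ∀ (i j : Fin 4) (hij : j ≠ i) (he : ({i, j} : Finset (Fin 4)) ∈ M4),
      (∀ u v, q ⟨{i, j}, he⟩ (two i j u v) = (w {i, j} (two i j u v) : ℝ) / 4) →
        q ⟨{i, j}, he⟩ = pt ⟨{i, j}, he⟩ := by
    intro i j hij he h
    funext x
    obtain ⟨⟨u, v⟩, rfl⟩ := (twoEquiv i j hij).surjective x
    exact h u v
  funext S
  obtain ⟨S, hS⟩ := S
  have hS' : S ∈ Mf := Finset.mem_coe.1 hS
  simp only [Mf, Finset.mem_insert, Finset.mem_singleton] at hS'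
  rcases hS' with rfl | rfl | rfl | rfl | rfl | rfl | rfl | rfl | rfl | rfl
  · funext x
    have h1 := (hsimp ⟨∅, hS⟩).2
    have h2 := (pt_mem.1 ⟨∅, hS⟩).2
    have : Subsingleton (Outcome O3 ∅) :=
      ⟨fun a b => funext fun k => absurd k.2 (Finset.notMem_empty _)⟩
    rw [Fintype.sum_subsingleton _ x] at h1 h2
    rw [h1, h2]
  · refine hone 0 hS fun u => ?_
    fin_cases u <;> simp [m1] <;> linarith
  · refine hone 1 hS fun u => ?_
    fin_cases u <;> simp [m1] <;> linarith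
  · refine hone 2 hS fun u => ?_
    fin_cases u <;> simp [m1] <;> linarith
  · refine hone 3 hS fun u => ?_
    fin_cases u <;> simp [m1] <;> linarith
  · refine htwo 0 1 (by decide) hS fun u v => ?_
    rw [w_01]
    fin_cases u <;> fin_cases v <;> simp <;> linarith
  · refine htwo 0 2 (by decide) hS fun u v => ?_
    rw [w_02]
    fin_cases u <;> fin_cases v <;> simp [m1] <;> linarith
  · refine htwo 1 2 (by decide) hS fun u v => ?_
    rw [w_12]
    fin_cases u <;> fin_cases v <;> simp [m1] <;> linarith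
  · refine htwo 0 3 (by decide) hS fun u v => ?_
    rw [w_03]
    fin_cases u <;> fin_cases v <;> simp [m1] <;> linarith
  · refine htwo 2 3 (by decide) hS fun u v => ?_
    rw [w_23]
    fin_cases u <;> fin_cases v <;> simp [m1, sw] <;> linarith

theorem pt_extreme : pt ∈ (marginalModels M4 O3).extremePoints ℝ := by
  refine ⟨pt_mem, fun q hq r hr hseg => eq_pt_of_support q hq fun S x hx => ?_⟩
  obtain ⟨a, b, ha, hb, -, hab⟩ := hseg
  have h1 := congrFun (congrFun hab S) x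
  have hq0 := (hq.1 S).1 x
  have hr0 := (hr.1 S).1 x
  simp only [Pi.add_apply, Pi.smul_apply, smul_eq_mul, pt, hx, Nat.cast_zero, zero_div] at h1
  have h2 : a * q S x = 0 := by
    have := mul_nonneg ha.le hq0
    have := mul_nonneg hb.le hr0
    linarith
  exact (mul_eq_zero.1 h2).resolve_left ha.ne'

theorem negMulLog_half : Real.negMulLog (2⁻¹ : ℝ) = Real.log 2 / 2 := by
  simp [Real.negMulLog]; ring

theorem negMulLog_quarter : Real.negMulLog (4⁻¹ : ℝ) = Real.log 2 / 2 := by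
  have : Real.log 4 = 2 * Real.log 2 := by
    rw [show (4 : ℝ) = 2 ^ 2 by norm_num, Real.log_pow]; norm_num
  simp [Real.negMulLog, this]; ring

theorem ent_two (i j : Fin 4) (hij : j ≠ i) (he : ({i, j} : Finset (Fin 4)) ∈ M4) :
    shannonEntropy (pt ⟨{i, j}, he⟩) =
      ∑ u : Fin 3, ∑ v : Fin 3, Real.negMulLog ((w {i, j} (two i j u v) : ℝ) / 4) := by
  unfold shannonEntropy
  rw [← (twoEquiv i j hij).sum_comp, Fintype.sum_prod_type]
  rfl

theorem h24 : (2 : ℝ) / 4 = 2⁻¹ := by norm_num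

theorem ent_2 : shannonEntropy (pt ⟨{2}, m2⟩) = 3 / 2 * Real.log 2 := by
  unfold shannonEntropy
  rw [← (oneEquiv 2).sum_comp]
  change ∑ u : Fin 3, Real.negMulLog ((w {2} (one 2 u) : ℝ) / 4) = _
  simp only [w_one, Fin.sum_univ_three]
  simp [m1, h24, negMulLog_half, negMulLog_quarter]
  ring

theorem ent_01 : shannonEntropy (pt ⟨{0, 1}, m01⟩) = 2 * Real.log 2 := by
  rw [ent_two 0 1 (by decide)]
  simp only [w_01, Fin.sum_univ_three]
  simp [negMulLog_quarter]
  ring

theorem ent_02 : shannonEntropy (pt ⟨{0, 2}, m02⟩) = 3 / 2 * Real.log 2 := by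
  rw [ent_two 0 2 (by decide)]
  simp only [w_02, Fin.sum_univ_three]
  simp [m1, h24, negMulLog_half, negMulLog_quarter]
  ring

theorem ent_12 : shannonEntropy (pt ⟨{1, 2}, m12⟩) = 3 / 2 * Real.log 2 := by
  rw [ent_two 1 2 (by decide)]
  simp only [w_12, Fin.sum_univ_three]
  simp [m1, h24, negMulLog_half, negMulLog_quarter]
  ring

theorem pt_contextual : ¬ IsNonContextual M4 (fun S => shannonEntropy (pt S)) := by
  rintro ⟨f, hf, hres⟩
  have h2 : f {2} = 3 / 2 * Real.log 2 := (hres ⟨{2}, m2⟩).trans ent_2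
  have h01 : f {0, 1} = 2 * Real.log 2 := (hres ⟨{0, 1}, m01⟩).trans ent_01
  have h02 : f {0, 2} = 3 / 2 * Real.log 2 := (hres ⟨{0, 2}, m02⟩).trans ent_02
  have h12 : f {1, 2} = 3 / 2 * Real.log 2 := (hres ⟨{1, 2}, m12⟩).trans ent_12
  have hsub := hf.submodular {0, 2} {1, 2}
  have hmono := hf.mono {0, 1} ({0, 2} ∪ {1, 2}) (by decide)
  have hi : ({0, 2} : Finset (Fin 4)) ∩ {1, 2} = {2} := by decide
  rw [hi] at hsub
  have hlog : 0 < Real.log 2 := Real.log_pos (by norm_num)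
  linarith

end Pool.Agent.MP_2f9b3f_lc
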